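import Pool.Agent.H72.GP.Targets
import Pool.Agent.H19.PSV.TAM
import Pool.Agent.H19.PSV.TAP
import Pool.Agent.H25.PSV.TAR

/-!
Row TAR of the board gpo_modules: the Taylor series of the auxiliary function.
-/

set_option autoImplicit false

open Polynomial Finset

open Pool.Agent.H72.GP

open Pool.Agent.H85.PS (II MM Vec Sup Deg Jf Typ Maj Tay)

open Pool.Agent.H25.PSV (Tay_sum Tay_prod Tay_pow)

namespace Pool.Agent.H98.GPO

theorem pf_TAR : T_TAR := by
  intro s D F z0 L A hF hL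
  have h1 := Pool.Agent.H19.PSV.pf_TAM
  have h2 := Pool.Agent.H19.PSV.pf_TAP
  have hpol : ∀ p : ℚ[X], AnalyticAt ℂ (fun z : ℂ => aeval z p) (z0 : ℂ) := by
    intro p
    exact AnalyticAt.aeval_polynomial analyticAt_id p
  have hR : RR F D A = ∑ e ∈ II s D, (fun z : ℂ => aeval z (A e)) * ∏ k, (F k) ^ e k := by
    funext z
    simp only [RR, Finset.sum_apply, Finset.prod_apply, Pi.mul_apply, Pi.pow_apply]
  have hprod : ∀ e : Fin s → ℕ, AnalyticAt ℂ (∏ k, (F k) ^ e k) (z0 : ℂ) := fun e =>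
    Finset.analyticAt_prod _ fun k _ => (hF k).pow (e k)
  rw [hR, Tay_sum h1 _ _ _ fun e _ => (hpol (A e)).mul (hprod e)]
  refine Finset.sum_congr rfl fun e _ => ?_
  rw [(h1 _ _ _ (hpol (A e)) (hprod e)).1, h2, Tay_prod h1 _ _ _ fun k _ => (hF k).pow (e k)]
  congr 1
  refine Finset.prod_congr rfl fun k _ => ?_
  rw [Tay_pow h1 _ _ (hF k), hL]

end Pool.Agent.H98.GPO
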